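import Mathlib

namespace Pool.Agent.H.MP_c5a801_co

/-- a rotor mechanism: at each vertex a cyclic permutation of the neighbours -/
structure Mech {V : Type} (G : SimpleGraph V) where
  nxt : ∀ v, Equiv.Perm (G.neighborSet v)
  cyc : ∀ v, (nxt v).IsCycleOn Set.univ

open Classical in
/-- the rotor walk: position and rotor configuration at time `t` -/
noncomputable def walk {V : Type} {G : SimpleGraph V} (M : Mech G) (x0 : V)
    (r0 : ∀ v, G.neighborSet v) : ℕ → V × (∀ v, G.neighborSet v)
  | 0 => (x0, r0)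
  | t + 1 =>
    ((M.nxt (walk M x0 r0 t).1 ((walk M x0 r0 t).2 (walk M x0 r0 t).1) : V),
      Function.update (walk M x0 r0 t).2 (walk M x0 r0 t).1
        (M.nxt (walk M x0 r0 t).1 ((walk M x0 r0 t).2 (walk M x0 r0 t).1)))

end Pool.Agent.H.MP_c5a801_co
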