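import Pool.Agent.H.MP_c5a801_co.Defs

namespace Pool.Agent.H.MP_c5a801_co

open Finset

theorem perm_of_trans {α : Type} [Finite α] (f : α → α) (h : ∀ a b, ∃ k, f^[k] a = b) :
    ∃ σ : Equiv.Perm α, (∀ a, σ a = f a) ∧ σ.IsCycleOn Set.univ := by
  have hs : Function.Surjective f := by
    intro b
    obtain ⟨k, hk⟩ := h (f b) b
    refine ⟨f^[k] b, ?_⟩
    rw [← Function.iterate_succ_apply' f, Function.iterate_succ_apply, hk]
  have hb : Function.Bijective f := ⟨Finite.injective_iff_surjective.2 hs, hs⟩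
  refine ⟨Equiv.ofBijective f hb, fun _ => rfl, ⟨(Equiv.ofBijective f hb).bijective.bijOn_univ, ?_⟩⟩
  intro a _ b _
  obtain ⟨k, hk⟩ := h a b
  refine ⟨(k : ℤ), ?_⟩
  rw [zpow_natCast, Equiv.Perm.coe_pow]
  exact hk

abbrev W := Σ n : ℕ, Fin (2 ^ n)

def G : SimpleGraph W where
  Adj x y := x.1 + 1 = y.1 ∨ y.1 + 1 = x.1
  symm := ⟨fun _ _ h => h.symm⟩
  loopless := ⟨fun _ h => by omega⟩

def mk (n a : ℕ) : W := ⟨n, ⟨a % 2 ^ n, Nat.mod_lt _ (by positivity)⟩⟩

theorem mk_eq (x : W) : x = mk x.1 x.2.val := by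
  obtain ⟨n, a⟩ := x
  simp only [mk]
  congr
  exact Fin.ext (Nat.mod_eq_of_lt a.isLt).symm

theorem mk_val {n a : ℕ} (h : a < 2 ^ n) : (mk n a).2.val = a := Nat.mod_eq_of_lt h

theorem mk_fst (n a : ℕ) : (mk n a).1 = n := rfl

theorem mk_mod (n a : ℕ) : mk n (a % 2 ^ n) = mk n a := by simp [mk]

def nx (n : ℕ) (w : W) : W :=
  if w.1 = n + 1 then
    (if n ≠ 0 ∧ w.2.val % 4 = 3 then mk (n - 1) (w.2.val / 4 + 1) else mk (n + 1) (w.2.val + 1))
  else mk (n + 1) (4 * w.2.val)

theorem nx_adj (v w : W) : G.Adj v (nx v.1 w) := by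
  unfold nx
  split_ifs with h1 h2
  · right; show v.1 - 1 + 1 = v.1; omega
  · left; rfl
  · left; rfl

theorem nx_down (n j : ℕ) (hj : j < 2 ^ n) : (nx (n + 1))^[5] (mk n j) = mk n (j + 1) := by
  have hp : 2 ^ (n + 2) = 4 * 2 ^ n := by ring
  have h0 : nx (n + 1) (mk n j) = mk (n + 2) (4 * j) := by
    unfold nx; rw [if_neg (show ¬ (mk n j).1 = n + 1 + 1 by simp [mk]; omega), mk_val hj]
  have h1 : ∀ q < 3, nx (n + 1) (mk (n + 2) (4 * j + q)) = mk (n + 2) (4 * j + q + 1) := by
    intro q hq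
    unfold nx
    rw [if_pos (mk_fst _ _), mk_val (n := n + 2) (by omega), if_neg (by omega)]
  have h2 : nx (n + 1) (mk (n + 2) (4 * j + 3)) = mk n (j + 1) := by
    unfold nx
    rw [if_pos (mk_fst _ _), mk_val (n := n + 2) (by omega), if_pos (by omega), show (4 * j + 3) / 4 = j by omega]
    rfl
  simp only [Function.iterate_succ_apply', Function.iterate_zero_apply]
  rw [h0, show 4 * j = 4 * j + 0 from rfl, h1 0 (by omega), h1 1 (by omega), h1 2 (by omega), h2]

theorem nx_up (n j q : ℕ) (hj : j < 2 ^ n) (hq : q < 4) :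
    (nx (n + 1))^[q + 1] (mk n j) = mk (n + 2) (4 * j + q) := by
  have hp : 2 ^ (n + 2) = 4 * 2 ^ n := by ring
  induction q with
  | zero =>
    show nx (n + 1) (mk n j) = _
    unfold nx; rw [if_neg (show ¬ (mk n j).1 = n + 1 + 1 by simp [mk]; omega), mk_val hj]; rfl
  | succ q ih =>
    rw [Function.iterate_succ_apply', ih (by omega)]
    unfold nx
    rw [if_pos (mk_fst _ _), mk_val (n := n + 2) (by omega), if_neg (by omega)]; rfl

theorem nx_dd (n j k : ℕ) : (nx (n + 1))^[5 * k] (mk n j) = mk n (j + k) := by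
  induction k with
  | zero => rfl
  | succ k ih =>
    rw [show 5 * (k + 1) = 5 + 5 * k by ring, Function.iterate_add_apply, ih, ← mk_mod,
      nx_down _ _ (Nat.mod_lt _ (by positivity)), ← mk_mod, Nat.mod_add_mod, mk_mod]; rfl

theorem nx_trans (n : ℕ) (a b : W) (ha : n + 1 = a.1 ∨ a.1 + 1 = n) (hb : n + 1 = b.1 ∨ b.1 + 1 = n) :
    ∃ k, (nx n)^[k] a = b := by
  rcases n with _ | n
  · obtain ⟨m, i⟩ := a
    obtain ⟨m', i'⟩ := b
    obtain rfl : m = 1 := by simp only at ha; omega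
    obtain rfl : m' = 1 := by simp only at hb; omega
    by_cases h : i = i'
    · exact ⟨0, by rw [h]; rfl⟩
    · refine ⟨1, ?_⟩
      revert i i'; decide
  · have hp : 2 ^ (n + 1 + 1) = 4 * 2 ^ n := by ring
    have form : ∀ c : W, (n + 1 + 1 = c.1 ∨ c.1 + 1 = n + 1) →
        ∃ j < 2 ^ n, ∃ q < 5, c = (nx (n + 1))^[q] (mk n j) := by
      rintro ⟨m, i⟩ (h | h)
      · obtain rfl : m = n + 2 := h.symm
        have hi : i.val < 2 ^ (n + 1 + 1) := i.isLt
        refine ⟨i.val / 4, by omega, i.val % 4 + 1, by omega, ?_⟩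
        rw [nx_up _ _ _ (by omega) (by omega), Nat.div_add_mod]
        exact mk_eq _
      · obtain rfl : m = n := by simp only at h; omega
        exact ⟨i.val, i.isLt, 0, by omega, mk_eq _⟩
    obtain ⟨j, hj, q, hq, rfl⟩ := form a ha
    obtain ⟨j', hj', q', -, rfl⟩ := form b hb
    refine ⟨q' + (5 * (2 ^ n + j' - j) - q), ?_⟩
    rw [← Function.iterate_add_apply, show q' + (5 * (2 ^ n + j' - j) - q) + q =
      q' + 5 * (2 ^ n + j' - j) by omega, Function.iterate_add_apply, nx_dd, ← mk_mod,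
      show j + (2 ^ n + j' - j) = 2 ^ n + j' by omega, Nat.add_mod_left, mk_mod]

theorem fin_level (n : ℕ) : {w : W | w.1 = n}.Finite := by
  refine (Set.finite_range fun i : Fin (2 ^ n) => (⟨n, i⟩ : W)).subset ?_
  rintro ⟨m, i⟩ h
  obtain rfl : m = n := h
  exact ⟨i, rfl⟩

theorem fin_nbr (v : W) : (G.neighborSet v).Finite := by
  refine ((fin_level (v.1 + 1)).union (fin_level (v.1 - 1))).subset ?_
  rintro w (h | h)
  · left; exact h.symm
  · right; show w.1 = v.1 - 1; omega

theorem exists_mech : ∃ M : Mech G, ∀ v w, (M.nxt v w : W) = nx v.1 w := by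
  have : ∀ v, ∃ σ : Equiv.Perm (G.neighborSet v), (∀ w, (σ w : W) = nx v.1 w) ∧
      σ.IsCycleOn Set.univ := by
    intro v
    haveI : Finite (G.neighborSet v) := fin_nbr v
    let f : G.neighborSet v → G.neighborSet v := fun w => ⟨nx v.1 w, nx_adj v w⟩
    have hf : ∀ k w, (f^[k] w : W) = (nx v.1)^[k] w := by
      intro k
      induction k with
      | zero => intro w; rfl
      | succ k ih => intro w; rw [Function.iterate_succ_apply, Function.iterate_succ_apply, ih]
    obtain ⟨σ, h1, h2⟩ := perm_of_trans f (fun a b => by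
      obtain ⟨k, hk⟩ := nx_trans v.1 a b a.2 b.2
      exact ⟨k, Subtype.ext ((hf k a).trans hk)⟩)
    exact ⟨σ, fun w => by rw [h1], h2⟩
  choose σ h1 h2 using this
  exact ⟨⟨σ, h2⟩, h1⟩

theorem conn : G.Connected := by
  have h : ∀ n (i : Fin (2 ^ n)), G.Reachable ⟨n, i⟩ (mk 0 0) := by
    intro n
    induction n with
    | zero => intro i; rw [mk_eq ⟨0, i⟩, show i.val = 0 by omega]
    | succ n ih =>
      intro i
      exact (show G.Adj ⟨n + 1, i⟩ (mk n 0) from Or.inr rfl).reachable.trans (ih _)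
  haveI : Nonempty W := ⟨mk 0 0⟩
  exact ⟨fun x y => (h x.1 x.2).trans (h y.1 y.2).symm⟩

instance : Infinite W := Infinite.of_injective (fun n => mk n 0) fun a b h => congrArg Sigma.fst h

/-- number of up steps left before the next down step -/
def c (n : ℕ) (w : W) : ℕ := if w.1 = n + 1 then 3 - w.2.val % 4 else 4

theorem c_le (n : ℕ) (w : W) : c n w ≤ 4 := by unfold c; split_ifs <;> omega

theorem c_nx (n : ℕ) (w : W) :
    ((nx (n + 1) w).1 = n + 2 ∧ c (n + 1) (nx (n + 1) w) + 1 = c (n + 1) w) ∨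
    ((nx (n + 1) w).1 = n ∧ c (n + 1) (nx (n + 1) w) = c (n + 1) w + 4) := by
  have hd : 4 ∣ 2 ^ (n + 1 + 1) := ⟨2 ^ n, by ring⟩
  have hv : ∀ a, (mk (n + 1 + 1) a).2.val % 4 = a % 4 := fun a => Nat.mod_mod_of_dvd a hd
  unfold nx
  split_ifs with h1 h2
  · right
    refine ⟨rfl, ?_⟩
    unfold c
    rw [if_pos h1, if_neg (show ¬ (mk (n + 1 - 1) (w.2.val / 4 + 1)).1 = n + 1 + 1 by
      simp [mk]; omega)]
    omega
  · left
    refine ⟨rfl, ?_⟩
    unfold c
    rw [if_pos h1, if_pos (mk_fst _ _), hv]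
    omega
  · left
    refine ⟨rfl, ?_⟩
    unfold c
    rw [if_neg h1, if_pos (mk_fst _ _), hv]
    omega

theorem transient (M : Mech G) (hM : ∀ v w, (M.nxt v w : W) = nx v.1 w) (x0 : W)
    (r0 : ∀ v, G.neighborSet v) (v : W) : {t | (walk M x0 r0 t).1 = v}.Finite := by
  classical
  obtain ⟨x, hx⟩ : ∃ x : ℕ → W, ∀ t, (walk M x0 r0 t).1 = x t := ⟨_, fun _ => rfl⟩
  obtain ⟨r, hr⟩ : ∃ r : ℕ → ∀ v, G.neighborSet v, ∀ t, (walk M x0 r0 t).2 = r t := ⟨_, fun _ => rfl⟩
  have hx1 : ∀ t, x (t + 1) = nx (x t).1 (r t (x t)) := by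
    intro t
    rw [← hx, walk, ← hM, ← hr, ← hx]
  have hr1 : ∀ t w, (r (t + 1) w : W) = if w = x t then x (t + 1) else r t w := by
    intro t w
    rw [hx1, ← hr, walk, ← hM, ← hr, ← hx]
    by_cases h : w = (walk M x0 r0 t).1
    · subst h; simp
    · simp [h]
  have hadj : ∀ t, (x t).1 + 1 = (x (t + 1)).1 ∨ (x (t + 1)).1 + 1 = (x t).1 := by
    intro t; rw [hx1]; exact nx_adj _ _
  let U : ℕ → ℕ → ℕ := fun j T => ∑ t ∈ range T, if (x t).1 = j ∧ (x (t + 1)).1 = j + 1 then 1 else 0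
  let D : ℕ → ℕ → ℕ := fun j T => ∑ t ∈ range T, if (x t).1 = j ∧ (x (t + 1)).1 + 1 = j then 1 else 0
  have h1 : ∀ j T, U j T ≤ D (j + 1) T + if j < (x T).1 then 1 else 0 := by
    intro j T
    induction T with
    | zero => simp [U]
    | succ T ih =>
      simp only [U, D, sum_range_succ] at ih ⊢
      have := hadj T
      split_ifs at ih ⊢ <;> omega
  let Φ : ℕ → ℕ → ℕ := fun j T => ∑ i : Fin (2 ^ j), c j (r T ⟨j, i⟩)
  have h2 : ∀ j T, 4 * D (j + 1) T ≤ U (j + 1) T + Φ (j + 1) T := by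
    intro j T
    induction T with
    | zero => simp [D]
    | succ T ih =>
      simp only [U, D, sum_range_succ] at ih ⊢
      by_cases hl : (x T).1 = j + 1
      · obtain ⟨i0, hi0⟩ : ∃ i0 : Fin (2 ^ (j + 1)), x T = ⟨j + 1, i0⟩ := by
          generalize x T = y at hl
          obtain ⟨m, i⟩ := y
          obtain rfl : m = j + 1 := hl
          exact ⟨i, rfl⟩
        have e1 : Φ (j + 1) (T + 1) + c (j + 1) (r T (x T)) = Φ (j + 1) T + c (j + 1) (x (T + 1)) := by
          simp only [Φ]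
          rw [← add_sum_erase _ _ (mem_univ i0), ← add_sum_erase _ _ (mem_univ i0), hr1,
            if_pos hi0.symm, hi0]
          have : ∑ i ∈ univ.erase i0, c (j + 1) (r (T + 1) ⟨j + 1, i⟩) =
              ∑ i ∈ univ.erase i0, c (j + 1) (r T ⟨j + 1, i⟩) := by
            refine sum_congr rfl fun i hi => ?_
            rw [hr1, if_neg]
            rw [hi0]
            intro h
            exact (mem_erase.1 hi).1 (by simpa using h)
          rw [this]; ring
        have e2 := c_nx j (r T (x T))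
        have e3 : x (T + 1) = nx (j + 1) (r T (x T)) := by rw [hx1, hl]
        rw [← e3] at e2
        split_ifs <;> omega
      · have e1 : Φ (j + 1) (T + 1) = Φ (j + 1) T := by
          refine sum_congr rfl fun i _ => ?_
          rw [hr1, if_neg]
          intro h
          exact hl (by rw [← h])
        rw [if_neg (by omega), if_neg (by omega), e1]
        omega
  have h3 : ∀ j T, Φ j T ≤ 4 * 2 ^ j := by
    intro j T
    have : Φ j T ≤ ∑ _i : Fin (2 ^ j), 4 := sum_le_sum fun i _ => c_le _ _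
    simpa [mul_comm] using this
  have h4 : ∀ j T, D j T ≤ T := by
    intro j T
    have : D j T ≤ ∑ _t ∈ range T, 1 := sum_le_sum fun t _ => by split_ifs <;> omega
    simpa using this
  have h5 : ∀ T j, (x T).1 ≤ j + 1 → D (j + 1) T < 2 * 2 ^ (j + 1) := by
    intro T j hj
    by_contra hc
    have : ∀ k, 2 * 2 ^ (j + k + 1) ≤ D (j + k + 1) T := by
      intro k
      induction k with
      | zero => simpa using hc
      | succ k ih =>
        have a1 := h1 (j + k + 1) T
        have a2 := h2 (j + k) T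
        have a3 := h3 (j + k + 1) T
        rw [if_neg (by omega)] at a1
        rw [show j + (k + 1) + 1 = j + k + 1 + 1 by ring, pow_succ]
        omega
    have a1 := this T
    have a2 := h4 (j + T + 1) T
    have a3 : j + T + 1 < 2 ^ (j + T + 1) := Nat.lt_two_pow_self
    omega
  have h6 : ∀ T, x T = v → ((range T).filter fun t => x t = v).card ≤ 6 * 2 ^ v.1 := by
    intro T hT
    have a0 : ((range T).filter fun t => x t = v).card ≤ U v.1 T + D v.1 T := by
      simp only [U, D]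
      rw [card_filter, ← sum_add_distrib]
      refine sum_le_sum fun t _ => ?_
      have := hadj t
      by_cases h : x t = v
      · rw [if_pos h]; rw [h] at this ⊢; split_ifs <;> omega
      · rw [if_neg h]; omega
    have a1 := h1 v.1 T
    rw [hT, if_neg (lt_irrefl _)] at a1
    have a2 := h5 T v.1 (by rw [hT]; omega)
    have a3 : D v.1 T ≤ 2 * 2 ^ v.1 := by
      rcases hv : v.1 with _ | j
      · have : D 0 T = 0 := sum_eq_zero fun t _ => if_neg (by omega)
        omega
      · exact (h5 T j (by rw [hT, hv])).le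
    rw [pow_succ] at a2
    omega
  by_contra hinf
  have hinf' : {t | x t = v}.Infinite := by
    simp only [hx] at hinf
    exact hinf
  obtain ⟨s, hs, hcard⟩ := hinf'.exists_subset_card_eq (6 * 2 ^ v.1 + 1)
  obtain ⟨T, hT, hT'⟩ := hinf'.exists_gt (s.sup id)
  have := card_le_card (show s ⊆ (range T).filter fun t => x t = v from fun t ht =>
    mem_filter.2 ⟨mem_range.2 (lt_of_le_of_lt (le_sup (f := id) ht) hT'), hs ht⟩)
  have := h6 T hT
  omega

end Pool.Agent.H.MP_c5a801_co
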